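import Pool.Agent.L0h99.MN.Stm2

/-!
# TPT: the complement of a circuit with five edges and one edge
-/

set_option autoImplicit false

namespace Pool.Agent.L0h88.MD

open Finset Pool.Agent.L0h99.MN Pool.Agent.L0h99.MD

/-- first elements of the three branch sets for the pair `i j` of the table -/
def fa (i j : Fin 7) (k : Fin 3) : Fin 7 :=
  if i = 5 ∨ j = 5 then ![0, 4, 3] k else
  if i + j = 1 then ![5, 2, 6] k else
  if i + j = 3 then ![5, 3, 6] k else
  if i + j = 5 then ![5, 4, 6] k else
  if i + j = 0 then ![5, 0, 6] k else ![5, 1, 6] k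

/-- second elements of the three branch sets for the pair `i j` of the table -/
def fb (i j : Fin 7) (k : Fin 3) : Fin 7 :=
  if i = 5 ∨ j = 5 then ![2, 1, 3] k else
  if i + j = 1 then ![3, 4, 6] k else
  if i + j = 3 then ![4, 0, 6] k else
  if i + j = 5 then ![0, 1, 6] k else
  if i + j = 0 then ![1, 2, 6] k else ![2, 3, 6] k

theorem tabE : ∀ i j : Fin 7, tE i j = true → ∀ k : Fin 3,
    (fa i j k ≠ i ∧ fb i j k ≠ i ∧ fa i j k ≠ j ∧ fb i j k ≠ j) ∧
    (fa i j k = fb i j k ∨ tE (fa i j k) (fb i j k) = false) ∧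
    (tE i (fa i j k) = false ∨ tE i (fb i j k) = false) ∧
    (tE j (fa i j k) = false ∨ tE j (fb i j k) = false) ∧
    ∀ l : Fin 3, k ≠ l →
      (fa i j k ≠ fa i j l ∧ fa i j k ≠ fb i j l ∧ fb i j k ≠ fa i j l ∧ fb i j k ≠ fb i j l) ∧
      (tE (fa i j k) (fa i j l) = false ∨ tE (fa i j k) (fb i j l) = false ∨
        tE (fb i j k) (fa i j l) = false ∨ tE (fb i j k) (fb i j l) = false) := by
  decide

theorem cnt : ∑ i : Fin 7, (univ.filter fun j : Fin 7 => i ≠ j ∧ tE i j = false).card = 30 := by
  decide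

section

variable {V : Type} [Fintype V] [DecidableEq V]

theorem cn_pair (G : SimpleGraph V) (a b : V) (h : a = b ∨ G.Adj a b) : Cn G {a, b} := by
  refine ⟨⟨a, mem_insert_self a {b}⟩, fun X hX hne hX' => ?_⟩
  have hsub : ∀ z ∈ X, z = a ∨ z = b := fun z hz => by
    have := hX hz
    rwa [mem_insert, mem_singleton] at this
  rcases h with h | h
  · exfalso
    subst h
    apply hX'
    obtain ⟨z, hz⟩ := hne
    apply Subset.antisymm hX
    intro w hw
    rw [mem_insert, mem_singleton, or_self] at hw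
    rcases hsub z hz with h1 | h1 <;> rw [hw, ← h1] <;> exact hz
  · by_cases ha : a ∈ X
    · by_cases hb : b ∈ X
      · exfalso
        apply hX'
        apply Subset.antisymm hX
        intro w hw
        rw [mem_insert, mem_singleton] at hw
        rcases hw with rfl | rfl
        · exact ha
        · exact hb
      · exact ⟨a, ha, b, mem_sdiff.2 ⟨by simp, hb⟩, h⟩
    · obtain ⟨z, hz⟩ := hne
      rcases hsub z hz with h1 | h1
      · exact absurd (h1 ▸ hz) ha
      · exact ⟨b, h1 ▸ hz, a, mem_sdiff.2 ⟨by simp, ha⟩, h.symm⟩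

theorem patt (G : SimpleGraph V) (x : Fin 7 → V) (hx : Function.Injective x)
    (hadj : ∀ i j, i ≠ j → tE i j = false → G.Adj (x i) (x j)) (i j : Fin 7) (hij : tE i j = true) :
    Patt G (univ.image x) (x i) (x j) := by
  have key := tabE i j hij
  refine ⟨fun k => {x (fa i j k), x (fb i j k)}, fun k => ?_, fun k l hkl => ?_, fun k l hkl => ?_⟩
  · obtain ⟨⟨h1, h2, h3, h4⟩, h5, h6, h7, -⟩ := key k
    refine ⟨?_, ?_, ?_, ?_, ?_, ?_⟩
    · intro z hz
      rw [mem_insert, mem_singleton] at hz
      rcases hz with rfl | rfl <;> exact mem_image_of_mem _ (mem_univ _)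
    · rw [mem_insert, mem_singleton]
      rintro (h | h)
      · exact h1 (hx h).symm
      · exact h2 (hx h).symm
    · rw [mem_insert, mem_singleton]
      rintro (h | h)
      · exact h3 (hx h).symm
      · exact h4 (hx h).symm
    · apply cn_pair
      rcases h5 with h | h
      · exact Or.inl (congrArg x h)
      · by_cases he : fa i j k = fb i j k
        · exact Or.inl (congrArg x he)
        · exact Or.inr (hadj _ _ he h)
    · rcases h6 with h | h
      · exact ⟨_, mem_insert_self _ _, hadj _ _ (Ne.symm h1) h⟩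
      · exact ⟨_, mem_insert_of_mem (mem_singleton_self _), hadj _ _ (Ne.symm h2) h⟩
    · rcases h7 with h | h
      · exact ⟨_, mem_insert_self _ _, hadj _ _ (Ne.symm h3) h⟩
      · exact ⟨_, mem_insert_of_mem (mem_singleton_self _), hadj _ _ (Ne.symm h4) h⟩
  · obtain ⟨-, -, -, -, h⟩ := key k
    obtain ⟨⟨h1, h2, h3, h4⟩, -⟩ := h l hkl
    rw [disjoint_left]
    intro z hz hz'
    rw [mem_insert, mem_singleton] at hz hz'
    rcases hz with rfl | rfl <;> rcases hz' with h' | h'
    · exact h1 (hx h')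
    · exact h2 (hx h')
    · exact h3 (hx h')
    · exact h4 (hx h')
  · obtain ⟨-, -, -, -, h⟩ := key k
    obtain ⟨⟨h1, h2, h3, h4⟩, h5⟩ := h l hkl
    rcases h5 with h | h | h | h
    · exact ⟨_, mem_insert_self _ _, _, mem_insert_self _ _, hadj _ _ h1 h⟩
    · exact ⟨_, mem_insert_self _ _, _, mem_insert_of_mem (mem_singleton_self _), hadj _ _ h2 h⟩
    · exact ⟨_, mem_insert_of_mem (mem_singleton_self _), _, mem_insert_self _ _, hadj _ _ h3 h⟩
    · exact ⟨_, mem_insert_of_mem (mem_singleton_self _), _, mem_insert_of_mem (mem_singleton_self _),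
        hadj _ _ h4 h⟩

end

/-- **TPT** -/
theorem TPT : St_TPT := by
  intro hPKF V _ _ G S hS
  obtain ⟨x, hx, hSx, hadj⟩ := hS
  subst hSx
  by_cases h : ∃ i j, tE i j = true ∧ G.Adj (x i) (x j)
  · obtain ⟨i, j, h1, h2⟩ := h
    exact Or.inl (hPKF V G _ (x i) (x j) (mem_image_of_mem _ (mem_univ _)) (mem_image_of_mem _ (mem_univ _)) h2
      (patt G x hx hadj i j h1))
  · refine Or.inr ⟨?_, ?_⟩
    · have hN : ∀ i, N G (x i) ∩ univ.image x = (univ.filter fun j : Fin 7 => i ≠ j ∧ tE i j = false).image x := by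
        intro i
        ext z
        rw [mem_inter, mem_N, mem_image, mem_image]
        constructor
        · rintro ⟨h1, j, -, rfl⟩
          refine ⟨j, mem_filter.2 ⟨mem_univ _, ?_, ?_⟩, rfl⟩
          · rintro rfl
            exact G.loopless.irrefl _ h1
          · by_contra h2
            exact h ⟨i, j, by simpa using h2, h1⟩
        · rintro ⟨j, hj, rfl⟩
          obtain ⟨-, h1, h2⟩ := mem_filter.1 hj
          exact ⟨hadj i j h1 h2, j, mem_univ _, rfl⟩
      unfold ee
      rw [sum_image (fun i _ j _ hij => hx hij), card_image_of_injective _ hx, card_univ, Fintype.card_fin]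
      have h3 : ∑ i : Fin 7, ((N G (x i) ∩ univ.image x).card : ℤ) =
          ((∑ i : Fin 7, (univ.filter fun j : Fin 7 => i ≠ j ∧ tE i j = false).card : ℕ) : ℤ) := by
        rw [Nat.cast_sum]
        refine sum_congr rfl fun i _ => ?_
        rw [hN i, card_image_of_injective _ hx]
      rw [h3, cnt]
      norm_num
    · intro p hp q hq hpq hn
      rw [mem_image] at hp hq
      obtain ⟨i, -, rfl⟩ := hp
      obtain ⟨j, -, rfl⟩ := hq
      refine patt G x hx hadj i j ?_
      by_contra h2
      exact hn (hadj i j (fun h => hpq (congrArg x h)) (by simpa using h2))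

end Pool.Agent.L0h88.MD
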